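import Mathlib

set_option autoImplicit false

open Filter Topology

namespace Pool.Agent.Results.MP_60e8bf_an.IrregularVisits

/-- The set `N_T(x,U) = {n ≥ 0 : T^n x ∈ U}` of visiting times. -/
def visits {𝕜 X : Type*} [RCLike 𝕜] [NormedAddCommGroup X] [NormedSpace 𝕜 X]
    (T : X →L[𝕜] X) (x : X) (U : Set X) : Set ℕ := {n : ℕ | (T ^ n) x ∈ U}

/-- Lower density of a set of natural numbers: `liminf #(A ∩ [0,N]) / (N+1)`. -/
noncomputable def lowerDens (A : Set ℕ) : ℝ :=
  liminf (fun N : ℕ => ((A ∩ Set.Icc 0 N).ncard : ℝ) / ((N : ℝ) + 1)) atTop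

/-- Upper density of a set of natural numbers: `limsup #(A ∩ [0,N]) / (N+1)`. -/
noncomputable def upperDens (A : Set ℕ) : ℝ :=
  limsup (fun N : ℕ => ((A ∩ Set.Icc 0 N).ncard : ℝ) / ((N : ℝ) + 1)) atTop

/-- `x` is a hypercyclic vector of `T`: its orbit is dense. -/
def IsHypercyclicVector {𝕜 X : Type*} [RCLike 𝕜] [NormedAddCommGroup X] [NormedSpace 𝕜 X]
    (T : X →L[𝕜] X) (x : X) : Prop := Dense (Set.range fun n : ℕ => (T ^ n) x)

/-- `x` is a frequently hypercyclic vector of `T`: it visits every nonempty open set with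
positive lower density. -/
def IsFreqHypercyclicVector {𝕜 X : Type*} [RCLike 𝕜] [NormedAddCommGroup X] [NormedSpace 𝕜 X]
    (T : X →L[𝕜] X) (x : X) : Prop :=
  ∀ U : Set X, IsOpen U → U.Nonempty → 0 < lowerDens (visits T x U)

/-- The orbit of `x` is irregularly visiting: for some nonempty open set `U` the set
`N_T(x,U)` has no density. -/
def IsIrregularlyVisiting {𝕜 X : Type*} [RCLike 𝕜] [NormedAddCommGroup X] [NormedSpace 𝕜 X]
    (T : X →L[𝕜] X) (x : X) : Prop :=
  ∃ U : Set X, IsOpen U ∧ U.Nonempty ∧ lowerDens (visits T x U) < upperDens (visits T x U)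

/-! ### Counting functions -/

/-- number of elements of `A` in `[0,N]` (auxiliary, used in proofs only) -/
noncomputable def cnt (A : Set ℕ) (N : ℕ) : ℕ := (A ∩ Set.Icc 0 N).ncard

lemma fin_aux (A : Set ℕ) (N : ℕ) : (A ∩ Set.Icc 0 N).Finite :=
  (Set.finite_Icc 0 N).subset Set.inter_subset_right

lemma cnt_le (A : Set ℕ) (N : ℕ) : cnt A N ≤ N + 1 := by
  unfold cnt
  calc (A ∩ Set.Icc 0 N).ncard ≤ (Set.Icc 0 N).ncard :=
        Set.ncard_le_ncard Set.inter_subset_right (Set.finite_Icc 0 N)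
    _ = N + 1 := by
        rw [← Finset.coe_Icc, Set.ncard_coe_finset]; simp

lemma cnt_mono {A B : Set ℕ} (h : A ⊆ B) (N : ℕ) : cnt A N ≤ cnt B N := by
  unfold cnt
  exact Set.ncard_le_ncard (Set.inter_subset_inter_left _ h) (fin_aux B N)

lemma cnt_nonneg_div (A : Set ℕ) (N : ℕ) : 0 ≤ (cnt A N : ℝ) / ((N : ℝ) + 1) := by positivity

lemma cnt_div_le_one (A : Set ℕ) (N : ℕ) : (cnt A N : ℝ) / ((N : ℝ) + 1) ≤ 1 := by
  rw [div_le_one (by positivity)]
  exact_mod_cast cnt_le A N

lemma bdd_above (A : Set ℕ) :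
    IsBoundedUnder (· ≤ ·) atTop (fun N : ℕ => (cnt A N : ℝ) / ((N : ℝ) + 1)) :=
  isBoundedUnder_of ⟨1, fun N => cnt_div_le_one A N⟩

lemma bdd_below (A : Set ℕ) :
    IsBoundedUnder (· ≥ ·) atTop (fun N : ℕ => (cnt A N : ℝ) / ((N : ℝ) + 1)) :=
  isBoundedUnder_of ⟨0, fun N => cnt_nonneg_div A N⟩

lemma lowerDens_eq (A : Set ℕ) :
    lowerDens A = liminf (fun N : ℕ => (cnt A N : ℝ) / ((N : ℝ) + 1)) atTop := rfl

lemma upperDens_eq (A : Set ℕ) :
    upperDens A = limsup (fun N : ℕ => (cnt A N : ℝ) / ((N : ℝ) + 1)) atTop := rfl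

lemma lowerDens_le_upperDens (A : Set ℕ) : lowerDens A ≤ upperDens A :=
  liminf_le_limsup (bdd_above A) (bdd_below A)

lemma upperDens_mono {A B : Set ℕ} (h : A ⊆ B) : upperDens A ≤ upperDens B := by
  rw [upperDens_eq, upperDens_eq]
  refine limsup_le_limsup (Eventually.of_forall fun N => ?_) ?_ (bdd_above B)
  · have := cnt_mono h N
    have h2 : (cnt A N : ℝ) ≤ cnt B N := by exact_mod_cast this
    exact div_le_div_of_nonneg_right h2 (by positivity)
  · exact (bdd_below A).isCoboundedUnder_le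

lemma lowerDens_le_of_frequently {A : Set ℕ} {c : ℝ}
    (h : ∃ᶠ N in atTop, (cnt A N : ℝ) / ((N : ℝ) + 1) ≤ c) : lowerDens A ≤ c :=
  liminf_le_of_frequently_le h (bdd_below A)

lemma le_upperDens_of_frequently {A : Set ℕ} {c : ℝ}
    (h : ∃ᶠ N in atTop, c ≤ (cnt A N : ℝ) / ((N : ℝ) + 1)) : c ≤ upperDens A :=
  le_limsup_of_frequently_le h (bdd_above A)

lemma frequently_of_lt_upperDens {A : Set ℕ} {c : ℝ} (h : c < upperDens A) :
    ∃ᶠ N in atTop, c < (cnt A N : ℝ) / ((N : ℝ) + 1) :=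
  frequently_lt_of_lt_limsup ((bdd_below A).isCoboundedUnder_le) h

/-- A set whose elements are more than `K` apart is sparse. -/
lemma cnt_le_of_gap {A : Set ℕ} {K : ℕ}
    (h : ∀ a ∈ A, ∀ b ∈ A, a < b → K < b - a) (M : ℕ) :
    (cnt A M : ℝ) ≤ ((M : ℝ) + 1) / ((K : ℝ) + 1) + 1 := by
  have h1 : cnt A M ≤ M / (K + 1) + 1 := by
    unfold cnt
    calc (A ∩ Set.Icc 0 M).ncard ≤ (Set.Icc 0 (M / (K + 1))).ncard := by
          refine Set.ncard_le_ncard_of_injOn (fun a => a / (K + 1)) ?_ ?_ (Set.finite_Icc _ _)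
          · intro a ha
            exact ⟨Nat.zero_le _, Nat.div_le_div_right ha.2.2⟩
          · intro a ha b hb hab
            simp only at hab
            rcases lt_trichotomy a b with hlt | heq | hgt
            · exfalso
              have := h a ha.1 b hb.1 hlt
              have h2 := Nat.div_add_mod a (K + 1)
              have h3 := Nat.div_add_mod b (K + 1)
              have h4 := Nat.mod_lt b (Nat.succ_pos K)
              rw [hab] at h2
              have h5 : b % (K + 1) < K + 1 := h4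
              omega
            · exact heq
            · exfalso
              have := h b hb.1 a ha.1 hgt
              have h2 := Nat.div_add_mod a (K + 1)
              have h3 := Nat.div_add_mod b (K + 1)
              have h4 := Nat.mod_lt a (Nat.succ_pos K)
              rw [hab] at h2
              have h5 : a % (K + 1) < K + 1 := h4
              omega
      _ = M / (K + 1) + 1 := by
          rw [← Finset.coe_Icc, Set.ncard_coe_finset]; simp
  have h2 : ((M / (K + 1) : ℕ) : ℝ) ≤ (M : ℝ) / ((K + 1 : ℕ) : ℝ) := Nat.cast_div_le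
  have h3 : (cnt A M : ℝ) ≤ ((M / (K + 1) : ℕ) : ℝ) + 1 := by exact_mod_cast h1
  have h4 : (M : ℝ) / ((K + 1 : ℕ) : ℝ) ≤ ((M : ℝ) + 1) / ((K : ℝ) + 1) := by
    push_cast
    exact div_le_div_of_nonneg_right (by linarith) (by positivity)
  linarith

/-- Any set `A` of naturals contains a subset (through a given point of `A`) with the same upper
density but with arbitrarily small counts along a sequence of times. -/
lemma exists_blocks (A : Set ℕ) (n₀ : ℕ) (hn₀ : n₀ ∈ A) :
    ∃ I : Set ℕ, I ⊆ A ∧ n₀ ∈ I ∧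
      (∀ δ : ℝ, 0 < δ → ∃ᶠ M in atTop, (cnt I M : ℝ) ≤ δ * ((M : ℝ) + 1)) ∧
      upperDens A ≤ upperDens I := by
  set D := upperDens A with hD
  have step : ∀ j t : ℕ, ∃ t' : ℕ, (j + 1) * (t + 1) + n₀ ≤ t' ∧
      D - 1 / ((j : ℝ) + 1) < (cnt A t' : ℝ) / ((t' : ℝ) + 1) := by
    intro j t
    have hlt : D - 1 / ((j : ℝ) + 1) < upperDens A := by
      have : (0 : ℝ) < 1 / ((j : ℝ) + 1) := by positivity
      linarith
    obtain ⟨t', ht', h2⟩ := (frequently_atTop.1 (frequently_of_lt_upperDens hlt))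
      ((j + 1) * (t + 1) + n₀)
    exact ⟨t', ht', h2⟩
  choose g hg1 hg2 using step
  obtain ⟨t, tS⟩ : ∃ t : ℕ → ℕ, ∀ j : ℕ, t (j + 1) = g j (t j) :=
    ⟨fun j => Nat.rec 0 (fun j s => g j s) j, fun _ => rfl⟩
  have ht1 : ∀ j : ℕ, (j + 1) * (t j + 1) + n₀ ≤ t (j + 1) := fun j => by rw [tS]; exact hg1 j (t j)
  have ht2 : ∀ j : ℕ, D - 1 / ((j : ℝ) + 1) < (cnt A (t (j + 1)) : ℝ) / ((t (j + 1) : ℝ) + 1) :=
    fun j => by rw [tS]; exact hg2 j (t j)
  have hlt : ∀ j, t j < t (j + 1) := by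
    intro j
    have := ht1 j
    nlinarith [Nat.zero_le (t j), Nat.zero_le j, Nat.zero_le (j * t j)]
  have hmono : StrictMono t := strictMono_nat_of_lt_succ hlt
  have hge : ∀ j, j ≤ t j := fun j => hmono.id_le j
  refine ⟨{n | n ∈ A ∧ (n = n₀ ∨ ∃ k, t (2 * k) < n ∧ n ≤ t (2 * k + 1))}, fun n hn => hn.1,
    ⟨hn₀, Or.inl rfl⟩, ?_, ?_⟩
  · intro δ hδ
    rw [frequently_atTop]
    intro M₀
    obtain ⟨k, hk⟩ := exists_nat_one_div_lt hδ
    set m := max k M₀ with hm
    refine ⟨t (2 * m + 2), ?_, ?_⟩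
    · calc M₀ ≤ 2 * m + 2 := by omega
        _ ≤ t (2 * m + 2) := hge _
    · have h1 : cnt {n | n ∈ A ∧ (n = n₀ ∨ ∃ k, t (2 * k) < n ∧ n ≤ t (2 * k + 1))}
          (t (2 * m + 2)) ≤ t (2 * m + 1) + 1 := by
        unfold cnt
        calc _ ≤ (Set.Icc 0 (t (2 * m + 1))).ncard := by
              refine Set.ncard_le_ncard ?_ (Set.finite_Icc _ _)
              rintro n ⟨⟨_, h | ⟨j, hj1, hj2⟩⟩, _, hn2⟩
              · refine ⟨Nat.zero_le _, ?_⟩
                have h3 := ht1 0
                have h4 : t (0 + 1) ≤ t (2 * m + 1) :=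
                  hmono.monotone (show 0 + 1 ≤ 2 * m + 1 by omega)
                rw [h]
                omega
              · refine ⟨Nat.zero_le _, ?_⟩
                by_cases hjm : j ≤ m
                · exact hj2.trans (hmono.monotone (show 2 * j + 1 ≤ 2 * m + 1 by omega))
                · exfalso
                  have : t (2 * m + 2) ≤ t (2 * j) :=
                    hmono.monotone (show 2 * m + 2 ≤ 2 * j by omega)
                  omega
          _ = t (2 * m + 1) + 1 := by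
              rw [← Finset.coe_Icc, Set.ncard_coe_finset]; simp
      have h2 := ht1 (2 * m + 1)
      have h3 : ((2 * m + 2 : ℕ) : ℝ) * ((t (2 * m + 1) : ℝ) + 1) ≤ (t (2 * m + 2) : ℝ) + 1 := by
        have : (2 * m + 1 + 1) * (t (2 * m + 1) + 1) ≤ t (2 * m + 2) + 1 := by
          have h5 : t (2 * m + 1 + 1) = t (2 * m + 2) := rfl
          omega
        exact_mod_cast this
      have h4 : (cnt {n | n ∈ A ∧ (n = n₀ ∨ ∃ k, t (2 * k) < n ∧ n ≤ t (2 * k + 1))}
          (t (2 * m + 2)) : ℝ) ≤ (t (2 * m + 1) : ℝ) + 1 := by exact_mod_cast h1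
      have h6 : (k : ℝ) + 1 ≤ ((2 * m + 2 : ℕ) : ℝ) := by
        have : k + 1 ≤ 2 * m + 2 := by omega
        exact_mod_cast this
      have h7 : 1 ≤ δ * ((2 * m + 2 : ℕ) : ℝ) := by
        have h8 : 1 < δ * ((k : ℝ) + 1) := by
          rw [div_lt_iff₀ (by positivity)] at hk
          linarith
        nlinarith
      calc (cnt {n | n ∈ A ∧ (n = n₀ ∨ ∃ k, t (2 * k) < n ∧ n ≤ t (2 * k + 1))}
          (t (2 * m + 2)) : ℝ) ≤ 1 * ((t (2 * m + 1) : ℝ) + 1) := by linarith
        _ ≤ (δ * ((2 * m + 2 : ℕ) : ℝ)) * ((t (2 * m + 1) : ℝ) + 1) :=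
            mul_le_mul_of_nonneg_right h7 (by positivity)
        _ = δ * (((2 * m + 2 : ℕ) : ℝ) * ((t (2 * m + 1) : ℝ) + 1)) := by ring
        _ ≤ δ * ((t (2 * m + 2) : ℝ) + 1) := mul_le_mul_of_nonneg_left h3 hδ.le
  · refine le_of_forall_lt fun c hc => ?_
    obtain ⟨c', hc1, hc2⟩ := exists_between hc
    refine lt_of_lt_of_le hc1 (le_upperDens_of_frequently ?_)
    rw [frequently_atTop]
    intro M₀
    obtain ⟨k, hk⟩ := exists_nat_one_div_lt (show (0 : ℝ) < (D - c') / 2 by linarith)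
    set m := max k M₀ with hm
    refine ⟨t (2 * m + 1), ?_, ?_⟩
    · calc M₀ ≤ 2 * m + 1 := by omega
        _ ≤ t (2 * m + 1) := hge _
    · have h1 : cnt A (t (2 * m + 1)) ≤
          cnt {n | n ∈ A ∧ (n = n₀ ∨ ∃ k, t (2 * k) < n ∧ n ≤ t (2 * k + 1))}
          (t (2 * m + 1)) + (t (2 * m) + 1) := by
        unfold cnt
        calc (A ∩ Set.Icc 0 (t (2 * m + 1))).ncard
            ≤ (({n | n ∈ A ∧ (n = n₀ ∨ ∃ k, t (2 * k) < n ∧ n ≤ t (2 * k + 1))} ∩
                Set.Icc 0 (t (2 * m + 1))) ∪ Set.Icc 0 (t (2 * m))).ncard := by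
              refine Set.ncard_le_ncard ?_ ((fin_aux _ _).union (Set.finite_Icc _ _))
              rintro n ⟨hnA, _, hn2⟩
              by_cases hn : n ≤ t (2 * m)
              · exact Or.inr ⟨Nat.zero_le _, hn⟩
              · exact Or.inl ⟨⟨hnA, Or.inr ⟨m, not_le.1 hn, hn2⟩⟩, Nat.zero_le _, hn2⟩
          _ ≤ _ := Set.ncard_union_le _ _
          _ = _ := by
              congr 1
              rw [← Finset.coe_Icc, Set.ncard_coe_finset]; simp
      have h2 := ht1 (2 * m)
      have h3 : ((2 * m + 1 : ℕ) : ℝ) * ((t (2 * m) : ℝ) + 1) ≤ (t (2 * m + 1) : ℝ) + 1 := by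
        have : (2 * m + 1) * (t (2 * m) + 1) ≤ t (2 * m + 1) + 1 := by omega
        exact_mod_cast this
      have h4 := ht2 (2 * m)
      have h5 : (cnt A (t (2 * m + 1)) : ℝ) ≤
          (cnt {n | n ∈ A ∧ (n = n₀ ∨ ∃ k, t (2 * k) < n ∧ n ≤ t (2 * k + 1))}
          (t (2 * m + 1)) : ℝ) + ((t (2 * m) : ℝ) + 1) := by exact_mod_cast h1
      have hpos : (0 : ℝ) < (t (2 * m + 1) : ℝ) + 1 := by positivity
      have h6 : (k : ℝ) + 1 ≤ ((2 * m + 1 : ℕ) : ℝ) := by
        have : k + 1 ≤ 2 * m + 1 ∨ k = 0 ∧ m = 0 := by omega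
        have : k + 1 ≤ 2 * m + 1 := by omega
        exact_mod_cast this
      have h7 : 1 / (((2 * m : ℕ) : ℝ) + 1) < (D - c') / 2 := by
        refine lt_of_le_of_lt ?_ hk
        apply one_div_le_one_div_of_le (by positivity)
        push_cast at h6 ⊢
        linarith
      have h8 : ((t (2 * m) : ℝ) + 1) ≤ (D - c') / 2 * ((t (2 * m + 1) : ℝ) + 1) := by
        have h9 : 1 ≤ (D - c') / 2 * ((2 * m + 1 : ℕ) : ℝ) := by
          rw [div_lt_iff₀ (by positivity)] at h7
          push_cast at h7 ⊢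
          linarith
        calc ((t (2 * m) : ℝ) + 1) = 1 * ((t (2 * m) : ℝ) + 1) := by ring
          _ ≤ ((D - c') / 2 * ((2 * m + 1 : ℕ) : ℝ)) * ((t (2 * m) : ℝ) + 1) :=
              mul_le_mul_of_nonneg_right h9 (by positivity)
          _ = (D - c') / 2 * (((2 * m + 1 : ℕ) : ℝ) * ((t (2 * m) : ℝ) + 1)) := by ring
          _ ≤ _ := mul_le_mul_of_nonneg_left h3 (by linarith)
      rw [lt_div_iff₀ hpos] at h4
      rw [le_div_iff₀ hpos]
      have h10 : (D - (D - c') / 2) * ((t (2 * m + 1) : ℝ) + 1) ≤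
          (D - 1 / (((2 * m : ℕ) : ℝ) + 1)) * ((t (2 * m + 1) : ℝ) + 1) :=
        mul_le_mul_of_nonneg_right (by linarith) hpos.le
      nlinarith

/-! ### The dynamical part -/

section dynamics

variable {𝕜 X : Type*} [RCLike 𝕜] [NormedAddCommGroup X] [NormedSpace 𝕜 X]

/-- If the orbit of `x` consists of pairwise distinct points, each orbit point has an open
neighbourhood which is rarely visited and avoids the earlier orbit points. -/
lemma exists_open_sparse (T : X →L[𝕜] X) (x : X)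
    (hinj : Function.Injective fun n : ℕ => (T ^ n) x) (V : Set X) (hV : IsOpen V)
    (n K : ℕ) : ∃ W : Set X, IsOpen W ∧ (T ^ n) x ∈ W ∧ ((T ^ n) x ∈ V → W ⊆ V) ∧
      (∀ m < n, (T ^ m) x ∉ W) ∧
      (∀ a ∈ visits T x W, ∀ b ∈ visits T x W, a < b → K < b - a) := by
  have hsep : ∀ j : ℕ, ∃ W : Set X, IsOpen W ∧ (T ^ n) x ∈ W ∧
      (0 < j → ∀ z ∈ W, (T ^ j) z ∉ W) := by
    intro j
    rcases Nat.eq_zero_or_pos j with hj | hj
    · exact ⟨Set.univ, isOpen_univ, trivial, fun h => absurd h (by omega)⟩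
    · have hne : (T ^ n) x ≠ (T ^ j) ((T ^ n) x) := by
        intro h
        have h2 : (T ^ j) ((T ^ n) x) = (T ^ (j + n)) x := by rw [pow_add]; rfl
        rw [h2] at h
        have h3 : n = j + n := hinj h
        omega
      obtain ⟨P, Q, hP, hQ, hyP, hyQ, hPQ⟩ := t2_separation hne
      refine ⟨P ∩ (T ^ j) ⁻¹' Q, hP.inter (hQ.preimage (T ^ j).continuous), ⟨hyP, hyQ⟩, ?_⟩
      rintro _ z ⟨_, hz2⟩ ⟨h3, _⟩
      exact Set.disjoint_left.1 hPQ h3 hz2
  choose W hWo hWm hWs using hsep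
  have hV' : IsOpen {z : X | (T ^ n) x ∈ V → z ∈ V} := by
    by_cases h : (T ^ n) x ∈ V
    · have : {z : X | (T ^ n) x ∈ V → z ∈ V} = V :=
        Set.ext fun z => ⟨fun hz => hz h, fun hz _ => hz⟩
      rw [this]; exact hV
    · have : {z : X | (T ^ n) x ∈ V → z ∈ V} = Set.univ :=
        Set.ext fun z => ⟨fun _ => trivial, fun _ h' => absurd h' h⟩
      rw [this]; exact isOpen_univ
  refine ⟨((⋂ j ∈ Finset.range (K + 1), W j) ∩ (⋂ m ∈ Finset.range n, {(T ^ m) x}ᶜ)) ∩
    {z : X | (T ^ n) x ∈ V → z ∈ V}, ?_, ?_, ?_, ?_, ?_⟩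
  · exact ((isOpen_biInter_finset fun j _ => hWo j).inter
      (isOpen_biInter_finset fun m _ => isOpen_compl_singleton)).inter hV'
  · refine ⟨⟨?_, ?_⟩, fun h => h⟩
    · simp only [Set.mem_iInter]
      exact fun j _ => hWm j
    · simp only [Set.mem_iInter]
      intro m hm h
      have h3 : n = m := hinj h
      have := Finset.mem_range.1 hm
      omega
  · intro h z hz
    exact hz.2 h
  · rintro m hm ⟨⟨_, h2⟩, _⟩
    simp only [Set.mem_iInter] at h2
    exact h2 m (Finset.mem_range.2 hm) rfl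
  · rintro a ⟨⟨ha, _⟩, _⟩ b ⟨⟨hb, _⟩, _⟩ hab
    simp only [Set.mem_iInter] at ha hb
    by_contra hcon
    have hmem : b - a ∈ Finset.range (K + 1) := Finset.mem_range.2 (by omega)
    refine hWs (b - a) (by omega) _ (ha _ hmem) ?_
    have h2 : (T ^ (b - a)) ((T ^ a) x) = (T ^ b) x := by
      have h3 : b = (b - a) + a := by omega
      conv_rhs => rw [h3, pow_add]
      rfl
    rw [h2]
    exact hb _ hmem

/-- The core statement: it only uses that the orbit consists of pairwise distinct points. -/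
theorem core (T : X →L[𝕜] X) (x : X)
    (hinj : Function.Injective fun n : ℕ => (T ^ n) x) (V : Set X) (hV : IsOpen V)
    (n₀ : ℕ) (hn₀ : (T ^ n₀) x ∈ V) (ε : ℝ) (hε : 0 < ε) :
    ∃ U : Set X, U ⊆ V ∧ IsOpen U ∧ U.Nonempty ∧ lowerDens (visits T x U) < ε ∧
      upperDens (visits T x U) = upperDens (visits T x V) := by
  classical
  obtain ⟨I, hIA, hn₀I, hIlow, hIup⟩ := exists_blocks (visits T x V) n₀ hn₀
  have hK : ∀ n : ℕ, ∃ K : ℕ, 1 / ((K : ℝ) + 1) < ε / 8 * (1 / 2) ^ n := fun n =>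
    exists_nat_one_div_lt (by positivity)
  choose K hK using hK
  choose W hWo hWm hWV hWlt hWgap using
    fun n => exists_open_sparse T x hinj V hV n (K n)
  have hUV : (⋃ n ∈ I, W n) ⊆ V := by
    intro z hz
    simp only [Set.mem_iUnion] at hz
    obtain ⟨n, hn, hz⟩ := hz
    exact hWV n (hIA hn) hz
  have hIU : I ⊆ visits T x (⋃ n ∈ I, W n) := by
    intro n hn
    simp only [visits, Set.mem_ofPred_eq, Set.mem_iUnion]
    exact ⟨n, hn, hWm n⟩
  refine ⟨⋃ n ∈ I, W n, hUV, isOpen_biUnion fun n _ => hWo n,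
    ⟨(T ^ n₀) x, ?_⟩, ?_, ?_⟩
  · simp only [Set.mem_iUnion]
    exact ⟨n₀, hn₀I, hWm n₀⟩
  · have key : ∀ M : ℕ, (cnt (visits T x (⋃ n ∈ I, W n)) M : ℝ) ≤
        ε / 4 * ((M : ℝ) + 1) + cnt I M := by
      intro M
      have h1 : cnt (visits T x (⋃ n ∈ I, W n)) M ≤
          ∑ n ∈ (fin_aux I M).toFinset, cnt (visits T x (W n)) M := by
        unfold cnt
        refine le_trans (Set.ncard_le_ncard ?_ ?_)
          (Finset.set_ncard_biUnion_le (fin_aux I M).toFinset
            (fun n => visits T x (W n) ∩ Set.Icc 0 M))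
        · rintro m ⟨hm, hmM⟩
          simp only [visits, Set.mem_ofPred_eq, Set.mem_iUnion] at hm
          obtain ⟨n, hn, hm⟩ := hm
          simp only [Set.mem_iUnion]
          refine ⟨n, ?_, hm, hmM⟩
          rw [Set.Finite.mem_toFinset]
          refine ⟨hn, Nat.zero_le _, ?_⟩
          by_contra hcon
          exact hWlt n m (lt_of_le_of_lt hmM.2 (not_le.1 hcon)) hm
        · exact Set.Finite.biUnion (Finset.finite_toSet _) fun n _ => fin_aux _ _
      have h2 : (cnt (visits T x (⋃ n ∈ I, W n)) M : ℝ) ≤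
          ∑ n ∈ (fin_aux I M).toFinset, (cnt (visits T x (W n)) M : ℝ) := by
        exact_mod_cast h1
      have h3 : ∀ n ∈ (fin_aux I M).toFinset, (cnt (visits T x (W n)) M : ℝ) ≤
          (ε / 8 * ((M : ℝ) + 1)) * (1 / 2) ^ n + 1 := by
        intro n _
        refine (cnt_le_of_gap (hWgap n) M).trans ?_
        have h4 : ((M : ℝ) + 1) / ((K n : ℝ) + 1) = ((M : ℝ) + 1) * (1 / ((K n : ℝ) + 1)) := by
          ring
        have h5 : ((M : ℝ) + 1) * (1 / ((K n : ℝ) + 1)) ≤ ((M : ℝ) + 1) *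
            (ε / 8 * (1 / 2) ^ n) := mul_le_mul_of_nonneg_left (hK n).le (by positivity)
        linarith
      have h4 : ∑ n ∈ (fin_aux I M).toFinset, (cnt (visits T x (W n)) M : ℝ) ≤
          ∑ n ∈ (fin_aux I M).toFinset, ((ε / 8 * ((M : ℝ) + 1)) * (1 / 2) ^ n + 1) :=
        Finset.sum_le_sum h3
      have h5 : ∑ n ∈ (fin_aux I M).toFinset, ((ε / 8 * ((M : ℝ) + 1)) * (1 / 2) ^ n + 1) =
          (ε / 8 * ((M : ℝ) + 1)) * (∑ n ∈ (fin_aux I M).toFinset, (1 / (2 : ℝ)) ^ n) +
            cnt I M := by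
        rw [Finset.sum_add_distrib, Finset.mul_sum]
        congr 1
        rw [Finset.sum_const, nsmul_eq_mul, mul_one, cnt,
          Set.ncard_eq_toFinset_card _ (fin_aux I M)]
      have h6 : (∑ n ∈ (fin_aux I M).toFinset, (1 / (2 : ℝ)) ^ n) ≤ 2 := by
        refine le_trans (Finset.sum_le_sum_of_subset_of_nonneg ?_ ?_)
          (sum_geometric_two_le (M + 1))
        · intro n hn
          rw [Set.Finite.mem_toFinset] at hn
          have := hn.2.2
          exact Finset.mem_range.2 (by omega)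
        · intro n _ _
          positivity
      have h7 : (ε / 8 * ((M : ℝ) + 1)) * (∑ n ∈ (fin_aux I M).toFinset, (1 / (2 : ℝ)) ^ n) ≤
          (ε / 8 * ((M : ℝ) + 1)) * 2 := mul_le_mul_of_nonneg_left h6 (by positivity)
      linarith
    have h8 : lowerDens (visits T x (⋃ n ∈ I, W n)) ≤ ε / 2 := by
      refine lowerDens_le_of_frequently ?_
      refine (hIlow (ε / 4) (by positivity)).mono fun M hM => ?_
      rw [div_le_iff₀ (by positivity)]
      have := key M
      linarith
    linarith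
  · refine le_antisymm (upperDens_mono fun n hn => hUV hn) (hIup.trans (upperDens_mono hIU))

end dynamics

/-- A vector with dense orbit in a nontrivial space has pairwise distinct orbit points. -/
lemma orbit_injective {𝕜 X : Type*} [RCLike 𝕜] [NormedAddCommGroup X] [NormedSpace 𝕜 X]
    [Nontrivial X] (T : X →L[𝕜] X) (x : X) (hx : IsHypercyclicVector T x) :
    Function.Injective fun n : ℕ => (T ^ n) x := by
  intro a b hab
  simp only at hab
  by_contra hne
  -- the orbit would be finite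
  have hfin : (Set.range fun n : ℕ => (T ^ n) x).Finite := by
    wlog hlt : a < b generalizing a b with H
    · exact H hab.symm (Ne.symm hne) (by omega)
    · have hper : ∀ n : ℕ, (T ^ n) x ∈ (fun n : ℕ => (T ^ n) x) '' Set.Iio b := by
        intro n
        induction n using Nat.strong_induction_on with
        | _ n ih =>
          by_cases hn : n < b
          · exact ⟨n, hn, rfl⟩
          · have h1 : (T ^ n) x = (T ^ (n - b + a)) x := by
              have h2 : n = (n - b) + b := by omega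
              conv_lhs => rw [h2, pow_add]
              rw [pow_add]
              change (T ^ (n - b)) ((T ^ b) x) = (T ^ (n - b)) ((T ^ a) x)
              rw [hab]
            rw [h1]
            exact ih _ (by omega)
      refine ((Set.finite_Iio b).image (fun n : ℕ => (T ^ n) x)).subset ?_
      rintro _ ⟨n, rfl⟩
      exact hper n
  have huniv : (Set.univ : Set X).Finite := by
    have h1 : closure (Set.range fun n : ℕ => (T ^ n) x) = Set.univ := hx.closure_eq
    rw [hfin.isClosed.closure_eq] at h1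
    rw [← h1]
    exact hfin
  obtain ⟨z, hz⟩ := exists_ne (0 : X)
  have hinj : Function.Injective (fun n : ℕ => (n : 𝕜) • z) := by
    intro m n hmn
    have := smul_left_injective 𝕜 hz hmn
    exact_mod_cast this
  exact Set.infinite_range_of_injective hinj (huniv.subset (Set.subset_univ _))

/-- A frequently hypercyclic vector is hypercyclic. -/
lemma freq_imp_hypercyclic {𝕜 X : Type*} [RCLike 𝕜] [NormedAddCommGroup X] [NormedSpace 𝕜 X]
    (T : X →L[𝕜] X) (x : X) (hx : IsFreqHypercyclicVector T x) : IsHypercyclicVector T x := by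
  rw [IsHypercyclicVector, dense_iff_inter_open]
  intro U hU hne
  by_contra hcon
  have hemp : visits T x U = ∅ := by
    ext n
    simp only [visits, Set.mem_ofPred_eq, Set.mem_empty_iff_false, iff_false]
    intro hn
    exact hcon ⟨_, hn, n, rfl⟩
  have h1 := hx U hU hne
  rw [hemp] at h1
  have h2 : lowerDens ∅ ≤ 0 := by
    refine lowerDens_le_of_frequently (Frequently.of_forall fun N => ?_)
    simp [cnt]
  linarith

/-- Local quantitative form: for every hypercyclic vector `x`, every nonempty open set `V` and every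
`ε > 0` there is a nonempty open `U ⊆ V` whose visiting set has lower density `< ε` and the same
upper density as that of `V`. -/
theorem local_form {𝕜 X : Type*} [RCLike 𝕜] [NormedAddCommGroup X] [NormedSpace 𝕜 X]
    [Nontrivial X] (T : X →L[𝕜] X) (x : X) (hx : IsHypercyclicVector T x)
    (V : Set X) (hV : IsOpen V) (hVne : V.Nonempty) (ε : ℝ) (hε : 0 < ε) :
    ∃ U : Set X, U ⊆ V ∧ IsOpen U ∧ U.Nonempty ∧
        lowerDens (visits T x U) < ε ∧
        upperDens (visits T x U) = upperDens (visits T x V) := by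
  obtain ⟨_, hz, n₀, rfl⟩ := (dense_iff_inter_open.1 hx) V hV hVne
  exact core T x (orbit_injective T x hx) V hV n₀ hz ε hε

/-- **Answer to Q1.** Let `T` be a bounded operator on a nontrivial real or complex Banach space.
Every frequently hypercyclic vector of `T` has an irregularly visiting orbit. -/
theorem result {𝕜 X : Type*} [RCLike 𝕜] [NormedAddCommGroup X] [NormedSpace 𝕜 X]
    [CompleteSpace X] [Nontrivial X] (T : X →L[𝕜] X) (x : X)
    (hx : IsFreqHypercyclicVector T x) : IsIrregularlyVisiting T x := by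
  have hpos : 0 < lowerDens (visits T x Set.univ) := hx Set.univ isOpen_univ ⟨x, trivial⟩
  obtain ⟨U, _, hUo, hUne, h1, h2⟩ := local_form T x (freq_imp_hypercyclic T x hx) Set.univ
    isOpen_univ ⟨x, trivial⟩ _ hpos
  refine ⟨U, hUo, hUne, ?_⟩
  rw [h2]
  exact h1.trans_le (lowerDens_le_upperDens _)

end Pool.Agent.Results.MP_60e8bf_an.IrregularVisits
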